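import Mathlib
import Pool.Agent.H31.Spec2

set_option autoImplicit false
open Matrix Finset

namespace Pool.Agent.Results.MP_025d69_co.Counter

variable {n : ℕ}

/-- The subgraph induced on B is connected and has no cut-vertex. -/
def NoCut (G : SimpleGraph (Fin n)) (B : Finset (Fin n)) : Prop :=
  (G.induce (B : Set (Fin n))).Connected ∧
    ∀ v ∈ B, (G.induce (B.erase v : Set (Fin n))).Preconnected

/-- Connected, and every block (maximal vertex set inducing a connected subgraph without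
cut-vertex) is complete. -/
def BlockGraph (G : SimpleGraph (Fin n)) : Prop :=
  G.Connected ∧ ∀ B, Maximal (NoCut G) B → G.IsClique (B : Set (Fin n))

open Classical in
noncomputable def adjDet {V : Type} [Fintype V] [DecidableEq V] (G : SimpleGraph V) : ℝ :=
  (G.adjMatrix ℝ).det

theorem det_eq {V : Type} [Fintype V] [DecidableEq V] (G : SimpleGraph V) [DecidableRel G.Adj] :
    adjDet G = ((Int.castRingHom ℝ).mapMatrix (G.adjMatrix ℤ)).det := by
  rw [adjDet]; congr 1; ext i j; by_cases h : G.Adj i j <;> simp [h]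

def E : List (Fin 7 × Fin 7) := [(2, 3), (1, 4), (0, 5), (2, 5), (3, 5), (0, 6), (1, 6), (4, 6)]

def H : SimpleGraph (Fin 7) where
  Adj i j := (i, j) ∈ E ∨ (j, i) ∈ E
  symm := ⟨fun _ _ => Or.symm⟩
  loopless := ⟨by decide⟩

instance : DecidableRel H.Adj := fun i j => by unfold H; infer_instance

instance : DecidableRel (H.sum H).Adj := fun a b =>
  match a, b with
  | .inl a, .inl b => inferInstanceAs (Decidable (H.Adj a b))
  | .inr a, .inr b => inferInstanceAs (Decidable (H.Adj a b))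
  | .inl _, .inr _ => isFalse (by simp)
  | .inr _, .inl _ => isFalse (by simp)

instance (u v : Fin 7 ⊕ Fin 7) : DecidableRel (SimpleGraph.edge u v).Adj := fun _ _ =>
  decidable_of_iff _ (SimpleGraph.edge_adj ..).symm

def Q : Matrix (Fin 7) (Fin 7) ℤ :=
  !![4, -2, -2, -2, -2, 2, 2;
     -2, -1, 1, 1, 3, -1, 1;
     -2, 1, -1, 3, 1, 1, -1;
     -2, 1, 3, -1, 1, 1, -1;
     -2, 3, 1, 1, -1, -1, 1;
     2, -1, 1, 1, -1, -1, 1;
     2, 1, -1, -1, 1, 1, -1]

theorem blk : ∀ B, NoCut H B → H.IsClique (B : Set (Fin 7)) := by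
  unfold NoCut
  decide +kernel

theorem result : ¬ ∀ (n₁ n₂ : ℕ) (G₁ : SimpleGraph (Fin n₁)) (G₂ : SimpleGraph (Fin n₂))
    (v₁ : Fin n₁) (v₂ : Fin n₂), BlockGraph G₁ → BlockGraph G₂ → adjDet G₁ ≠ 0 → adjDet G₂ ≠ 0 →
    adjDet (G₁.sum G₂ ⊔ SimpleGraph.edge (.inl v₁) (.inr v₂)) ≠ 0 := by
  intro h
  have b : BlockGraph H := ⟨by decide +kernel, fun B hB => blk B hB.1⟩
  have d : adjDet H ≠ 0 := by
    rw [det_eq]
    exact ((isUnit_iff_isUnit_det _).mp (H31.Spec.unit_of_int (Q := Q) (w := fun _ => 4)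
      (by simp) (by decide +kernel))).ne_zero
  refine h 7 7 H H 0 0 b b d d ?_
  rw [det_eq, ← RingHom.map_det, exists_mulVec_eq_zero_iff.mp
    ⟨Sum.elim (Q 0) (-Q 0), by decide +kernel, by decide +kernel⟩, map_zero]

end Pool.Agent.Results.MP_025d69_co.Counter
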